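import Mathlib
import Pool.Agent.MP_650f93_lc.Main
import Pool.Agent.MP_650f93_lc.H98.Main

attribute [-instance] instNonemptyOfMonad RKHS.instFunLike AddQuantale.instAddLeftMono
  Group.IsPerfect.subsingleton_of_isMulCommutative AlexandrovDiscrete.toLocallyCompactSpace
  AddGroupSeminormClass.toNonnegHomClass NumberField.to_charZero CoalgHomClass.toSemilinearMapClass
  IdemSemiring.toCanonicallyOrderedAdd CStarAlgebra.instOrderClosedTopology
  MeasurableSingletonClass.toDiscreteMeasurableSpace AddQuantale.instAddRightMono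
  LinearOrder.toDecidableEq Valued.toUniformSpace MonoidHomClass.toOneHomClass
  RingHomClass.toLinearMapClassNNRat Quantale.instMulRightMono
  LinearOrderedCommMonoidWithZero.toPosMulStrictMono
  NonUnitalAlgSemiHomClass.toDistribMulActionSemiHomClass continuousSub_of_discreteTopology
  RingSeminormClass.toNonnegHomClass SemilinearIsometryClass.toSemilinearMapClass
  RingHomClass.toLinearMapClassRat

-- part MP_650f93_lc.H47.Lusin
section

set_option autoImplicit false

open Set Filter Topology MeasureTheory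
open scoped CompactlySupported

namespace Pool.Agent.MP_650f93_lc.H47

/-- minimax on a compact space -/
theorem minimax {K : Type} [TopologicalSpace K] [T2Space K] [CompactSpace K] [Nonempty K]
    [MeasurableSpace K] [BorelSpace K] (T : Set C(K, ℝ)) (hT : Convex ℝ T) (ε : ℝ)
    (h : ∀ κ : Measure K, IsProbabilityMeasure κ → ∃ v ∈ T, ∫ x, v x ∂κ < ε) :
    ∃ v ∈ T, ∀ x, v x < ε := by
  by_contra hcon
  push Not at hcon
  let S : Set C(K, ℝ) := {a | MapsTo a univ (Iio ε)}
  have hSo : IsOpen S := ContinuousMap.isOpen_setOfPred_mapsTo isCompact_univ isOpen_Iio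
  have hSc : Convex ℝ S := by
    intro a ha b hb s t hs ht hst x hx
    exact (convex_Iio ε) (ha hx) (hb hx) hs ht hst
  have hd : Disjoint S T := by
    rw [Set.disjoint_left]
    intro a ha haT
    obtain ⟨x, hx⟩ := hcon a haT
    exact absurd (ha (mem_univ x)) (not_lt.2 hx)
  obtain ⟨f, c, hf1, hf2⟩ := geometric_hahn_banach_open hSc hSo hT hd
  have hconst : ∀ t : ℝ, t < ε → t * f 1 < c := by
    intro t ht
    have := hf1 (t • (1 : C(K, ℝ))) (fun x _ => by simpa only [ContinuousMap.coe_smul, ContinuousMap.coe_one, Pi.smul_apply, Pi.one_apply, smul_eq_mul, mul_one, mem_Iio] using ht)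
    simpa only [gt_iff_lt, map_smul, smul_eq_mul] using this
  have hpos : ∀ g : C(K, ℝ), (∀ x, 0 ≤ g x) → 0 ≤ f g := by
    intro g hg
    by_contra hneg
    push Not at hneg
    let t : ℝ := (c - (ε - 1) * f 1) / (-f g)
    have ht0 : 0 ≤ t := div_nonneg (by linarith [hconst (ε - 1) (by linarith)]) (by linarith)
    have := hf1 ((ε - 1) • (1 : C(K, ℝ)) - t • g) (fun x _ => by
      have := mul_nonneg ht0 (hg x)
      simp only [mem_Iio, ContinuousMap.sub_apply, ContinuousMap.smul_apply,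
        ContinuousMap.one_apply, smul_eq_mul, mul_one]
      linarith)
    simp only [map_sub, map_smul, smul_eq_mul] at this
    have e : t * f g = -(c - (ε - 1) * f 1) := by
      simp only [t]
      field_simp [hneg.ne]
    linarith
  let Λ : C_c(K, ℝ) →ₚ[ℝ] ℝ :=
    { toFun := fun g => f g.toContinuousMap
      map_add' := fun g g' => by
        rw [← map_add]; rfl
      map_smul' := fun a g => by
        rw [← map_smul]; rfl
      monotone' := fun g g' hgg' => by
        have := hpos (g'.toContinuousMap - g.toContinuousMap) (fun x => sub_nonneg.2 (hgg' x))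
        rw [map_sub] at this
        exact sub_nonneg.1 this }
  let μ : Measure K := RealRMK.rieszMeasure Λ
  have hμ : ∀ g : C(K, ℝ), ∫ x, g x ∂μ = f g := fun g =>
    RealRMK.integral_rieszMeasure Λ ⟨g, HasCompactSupport.of_compactSpace _⟩
  have hm : μ.real univ = f 1 := by
    rw [← hμ 1]; simp
  by_cases h0 : μ = 0
  · obtain ⟨v, hv, -⟩ := h (Measure.dirac (Classical.arbitrary K)) inferInstance
    have h1 := hf2 v hv
    have h2 := hconst (ε - 1) (by linarith)
    rw [← hμ v] at h1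
    rw [← hm] at h2
    simp only [h0, integral_zero_measure, measureReal_zero, Pi.zero_apply, mul_zero] at h1 h2
    linarith
  have : NeZero μ := ⟨h0⟩
  obtain ⟨v, hv, hv'⟩ := h ((μ univ)⁻¹ • μ) inferInstance
  have hmpos : 0 < μ.real univ := measureReal_univ_pos
  rw [integral_smul_measure, hμ, ENNReal.toReal_inv, smul_eq_mul] at hv'
  change (μ.real univ)⁻¹ * f v < ε at hv'
  have h1 := hconst _ hv'
  rw [← hm, mul_right_comm, inv_mul_cancel₀ hmpos.ne', one_mul] at h1
  exact absurd (hf2 v hv) (not_le.2 h1)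

theorem isCompact_box (n : ℕ → ℕ) : IsCompact {σ : ℕ → ℕ | ∀ i, σ i ≤ n i} := by
  have : {σ : ℕ → ℕ | ∀ i, σ i ≤ n i} = Set.pi univ fun i => Iic (n i) := by
    ext σ; simp [Pi.le_def]
  rw [this]
  exact isCompact_univ_pi fun i => (finite_Iic (n i)).isCompact

/-- a Lusin scheme argument -/
theorem lusin (good : Set (ℕ → ℕ) → Prop) (hsub : ∀ S T, S ⊆ T → good T → good S)
    (hU : ∀ S : ℕ → Set (ℕ → ℕ), Monotone S → (∀ n, good (S n)) → good (⋃ n, S n))
    (hK : ∀ n : ℕ → ℕ, ∃ V, IsOpen V ∧ {σ | ∀ i, σ i ≤ n i} ⊆ V ∧ good V) : good univ := by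
  by_contra hno
  have step : ∀ (S : Set (ℕ → ℕ)) (k : ℕ), ∃ m, ¬ good S → ¬ good (S ∩ {σ | σ k ≤ m}) := by
    intro S k
    by_contra hcon
    push Not at hcon
    refine (hcon 0).1 (hsub _ _ ?_ (hU (fun m => S ∩ {σ | σ k ≤ m}) ?_ fun m => (hcon m).2))
    · exact fun σ hσ => mem_iUnion.2 ⟨σ k, hσ, le_refl (σ k)⟩
    · exact fun a b hab σ hσ => ⟨hσ.1, le_trans hσ.2 hab⟩
  choose m hm using step
  let S : ℕ → Set (ℕ → ℕ) := fun k => Nat.rec univ (fun k T => T ∩ {σ | σ k ≤ m T k}) k
  let n : ℕ → ℕ := fun k => m (S k) k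
  have hS1 : ∀ k, ¬ good (S k) := by
    intro k
    induction k with
    | zero => exact hno
    | succ k ih => exact hm _ k ih
  have hS2 : ∀ k, ∀ σ ∈ S k, ∀ i < k, σ i ≤ n i := by
    intro k
    induction k with
    | zero => intro σ _ i hi; omega
    | succ k ih =>
      intro σ hσ i hi
      rcases Nat.lt_succ_iff_lt_or_eq.1 hi with h | rfl
      · exact ih σ hσ.1 i h
      · exact hσ.2
  obtain ⟨V, hV, hCV, hgV⟩ := hK n
  have hex : ∀ k, ∃ σ ∈ S k, σ ∉ V := fun k => by
    by_contra hcon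
    push Not at hcon
    exact hS1 k (hsub _ _ hcon hgV)
  choose σ hσ hσV using hex
  obtain ⟨a, ha, φ, hφ, hlim⟩ := (isCompact_box n).tendsto_subseq
    (x := fun k i => min (σ k i) (n i)) fun k i => min_le_right _ _
  have hlim' : Tendsto (fun k => σ (φ k)) atTop (𝓝 a) := by
    rw [tendsto_pi_nhds] at hlim ⊢
    intro i
    refine (hlim i).congr' ?_
    filter_upwards [eventually_gt_atTop i] with k hk
    exact min_eq_left (hS2 _ _ (hσ _) i (lt_of_lt_of_le hk (hφ.id_le k)))
  exact (hV.isClosed_compl.mem_of_tendsto hlim' (Eventually.of_forall fun k => hσV _)) (hCV ha)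

/-- a Borel parametrisation by Baire space making countably many Borel functions continuous -/
theorem exists_param {Y : Type} [MeasurableSpace Y] [StandardBorelSpace Y] [Nonempty Y]
    (Φ : ℕ → Y → ℝ) (hΦ : ∀ n, Measurable (Φ n)) :
    ∃ ψ : (ℕ → ℕ) → Y, Measurable ψ ∧ Function.Surjective ψ ∧
      ∀ n, Continuous fun σ => Φ n (ψ σ) := by
  let u := upgradeStandardBorel Y
  have hm : Measurable fun y n => Φ n y := measurable_pi_lambda _ hΦ
  obtain ⟨t', ht', hc, hp⟩ := hm.exists_continuous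
  obtain ⟨ψ, hψ, hs⟩ := @PolishSpace.exists_nat_nat_continuous_surjective Y t' hp _
  refine ⟨ψ, ?_, hs, fun n => ?_⟩
  · have h1 : @Continuous _ _ _ u.toTopologicalSpace ψ := continuous_le_rng ht' hψ
    exact @Continuous.measurable _ _ _ _ _ u.toTopologicalSpace _ u.toBorelSpace _ h1
  · have h2 : Continuous fun σ n => Φ n (ψ σ) := @Continuous.comp _ _ _ _ t' _ _ _ hc hψ
    exact (continuous_apply n).comp h2

end Pool.Agent.MP_650f93_lc.H47

end

-- part MP_650f93_lc.H47.Family
section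

set_option autoImplicit false

open Set Filter Topology MeasureTheory
open scoped symmDiff

namespace Pool.Agent.MP_650f93_lc.H47

variable {X : Type} [MeasurableSpace X] {F : X → X → Prop} {γ : ℕ → X → X}

/-- the distance of two assignments at one point -/
noncomputable def d2 (f g : X × X → ℝ) (x : X) : ℝ := ∑' z, |f (x, z) - g (x, z)|

theorem hasSum_d2 {f g : X × X → ℝ} (hf : Asg F f) (hg : Asg F g) (x : X) :
    HasSum (fun z => |f (x, z) - g (x, z)|) (d2 f g x) :=
  ((hf.sum x).summable.sub (hg.sum x).summable).abs.hasSum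

omit [MeasurableSpace X] in
theorem d2_nonneg (f g : X × X → ℝ) (x : X) : 0 ≤ d2 f g x :=
  tsum_nonneg fun _ => abs_nonneg _

theorem d2_le {f g : X × X → ℝ} (hf : Asg F f) (hg : Asg F g) (x : X) : d2 f g x ≤ 2 := by
  refine (hasSum_le (fun z => ?_) (hasSum_d2 hf hg x) ((hf.sum x).add (hg.sum x))).trans
    (by norm_num)
  have := hf.nonneg (x, z)
  have := hg.nonneg (x, z)
  rw [abs_le]; constructor <;> linarith

theorem dd_le_d2 {f g : X × X → ℝ} (hf : Asg F f) (hg : Asg F g) (x y : X) :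
    dd g x y ≤ d2 f g x + dd f x y + d2 f g y := by
  refine hasSum_le (fun z => ?_) (hg.hasSum_dd x y)
    (((hasSum_d2 hf hg x).add (hf.hasSum_dd x y)).add (hasSum_d2 hf hg y))
  have h1 := le_abs_self (f (x, z) - g (x, z))
  have h2 := neg_abs_le (f (x, z) - g (x, z))
  have h3 := le_abs_self (f (x, z) - f (y, z))
  have h4 := neg_abs_le (f (x, z) - f (y, z))
  have h5 := le_abs_self (f (y, z) - g (y, z))
  have h6 := neg_abs_le (f (y, z) - g (y, z))
  rw [abs_le]; constructor <;> linarith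

theorem measurable_d2 [StandardBorelSpace X]
    (hγ : ∀ j, Measurable (γ j)) (hγ' : ∀ x y, F x y ↔ ∃ j, γ j x = y) {f g : X × X → ℝ}
    (hf : Asg F f) (hg : Asg F g) : Measurable (d2 f g) := by
  classical
  let S : X → Set ℕ := fun x => {i | ∀ i' < i, γ i' x ≠ γ i x}
  let T : ℕ → X → ℝ := fun i x =>
    (S x).indicator (fun i => |f (x, γ i x) - g (x, γ i x)|) i
  have hT : ∀ i, Measurable (T i) := by
    intro i
    have e : T i = {x | i ∈ S x}.indicator fun x => |f (x, γ i x) - g (x, γ i x)| := by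
      funext x
      simp only [T, indicator, mem_ofPred_eq]
    rw [e]
    refine Measurable.indicator ?_ ?_
    · exact ((hf.meas.comp (measurable_id.prodMk (hγ i))).sub
        (hg.meas.comp (measurable_id.prodMk (hγ i)))).abs
    · have : {x | i ∈ S x} = ⋂ i' : ℕ, ⋂ _ : i' < i, {x | γ i' x = γ i x}ᶜ := by
        ext x; simp only [S, ne_eq, mem_ofPred_eq, mem_iInter, mem_compl_iff]
      rw [this]
      exact MeasurableSet.iInter fun i' => MeasurableSet.iInter fun _ =>
        (measurableSet_eq_fun (hγ i') (hγ i)).compl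
  have hsum : ∀ x, HasSum (fun i => T i x) (d2 f g x) := by
    intro x
    have hinj : Function.Injective (fun i : S x => γ i.1 x) := by
      rintro ⟨a, ha⟩ ⟨b, hb⟩ hab
      rcases lt_trichotomy a b with hlt | rfl | hlt
      · exact absurd hab (hb a hlt)
      · rfl
      · exact absurd hab.symm (ha b hlt)
    have h1 := (hinj.hasSum_iff (f := fun z => |f (x, z) - g (x, z)|) (by
      intro z hz
      have hxz : ¬ F x z := by
        intro hxz
        have hex := (hγ' x z).1 hxz
        refine hz ⟨⟨Nat.find hex, fun i' hi' he => Nat.find_min hex hi' ?_⟩, Nat.find_spec hex⟩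
        rw [he]; exact Nat.find_spec hex
      simp [hf.supp x z hxz, hg.supp x z hxz])).2 (hasSum_d2 hf hg x)
    exact hasSum_subtype_iff_indicator.1 h1
  refine measurable_of_tendsto_metrizable (f := fun n x => ∑ i ∈ Finset.range n, T i x)
    (fun n => Finset.measurable_fun_sum _ fun i _ => hT i) ?_
  rw [tendsto_pi_nhds]
  exact fun x => (hsum x).tendsto_sum_nat

open Classical in
/-- the point mass along a map -/
noncomputable def pt (T : X → X) (p : X × X) : ℝ := if p.2 = T p.1 then 1 else 0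

theorem asg_pt [StandardBorelSpace X] {T : X → X} (hT : Measurable T) (h : ∀ x, F x (T x)) :
    Asg F (pt T) := by
  classical
  refine ⟨?_, fun p => ?_, fun x z hz => ?_, fun x => ?_⟩
  · exact Measurable.ite (measurableSet_eq_fun measurable_snd (hT.comp measurable_fst))
      measurable_const measurable_const
  · unfold pt; split_ifs <;> norm_num
  · exact if_neg fun (e : z = T x) => hz (e ▸ h x)
  · convert hasSum_ite_eq (T x) (1 : ℝ) using 2
    simp only [pt]

/-- assignments with constant rational weights -/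
noncomputable def ker (γ : ℕ → X → X) (t : Finset (ℕ × ℚ)) (p : X × X) : ℝ :=
  ∑ a ∈ t, (a.2 : ℝ) * pt (γ a.1) p + (1 - ∑ a ∈ t, (a.2 : ℝ)) * pt id p

theorem asg_ker [StandardBorelSpace X] (hF : Equivalence F) (hγ : ∀ j, Measurable (γ j))
    (hγ' : ∀ x y, F x y ↔ ∃ j, γ j x = y) {t : Finset (ℕ × ℚ)}
    (h0 : ∀ a ∈ t, (0 : ℝ) ≤ a.2) (h1 : ∑ a ∈ t, (a.2 : ℝ) ≤ 1) : Asg F (ker γ t) := by
  have hp : ∀ j, Asg F (pt (γ j)) := fun j => asg_pt (hγ j) fun x => (hγ' _ _).2 ⟨j, rfl⟩
  have hi : Asg F (pt id) := asg_pt measurable_id hF.refl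
  refine ⟨?_, fun p => ?_, fun x z hz => ?_, fun x => ?_⟩
  · exact (Finset.measurable_fun_sum _ fun a _ => (hp a.1).meas.const_mul _).add
      (hi.meas.const_mul _)
  · exact add_nonneg (Finset.sum_nonneg fun a ha => mul_nonneg (h0 a ha) ((hp _).nonneg p))
      (mul_nonneg (sub_nonneg.2 h1) (hi.nonneg p))
  · unfold ker
    rw [hi.supp x z hz, Finset.sum_eq_zero fun a _ => by rw [(hp _).supp x z hz, mul_zero]]
    simp
  · have := (hasSum_sum (s := t) fun a _ => ((hp a.1).sum x).mul_left (a.2 : ℝ)).add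
      ((hi.sum x).mul_left (1 - ∑ a ∈ t, (a.2 : ℝ)))
    simp only [mul_one, add_sub_cancel] at this
    exact this

theorem exists_ker [StandardBorelSpace X] (hF : Equivalence F)
    (hγ' : ∀ x y, F x y ↔ ∃ j, γ j x = y) {f : X × X → ℝ} (hf : Asg F f) (x : X)
    {ε : ℝ} (hε : 0 < ε) : ∃ t : Finset (ℕ × ℚ), (∀ a ∈ t, (0 : ℝ) ≤ a.2) ∧
      ∑ a ∈ t, (a.2 : ℝ) ≤ 1 ∧ d2 f (ker γ t) x < ε := by
  classical
  obtain ⟨s0, hs0⟩ : ∃ s0 : Finset X, 1 - ε / 4 < ∑ z ∈ s0, f (x, z) :=
    ((hf.sum x).eventually (lt_mem_nhds (show 1 - ε / 4 < 1 by linarith))).exists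
  let s := s0.filter fun z => 0 < f (x, z)
  have hs : ∑ z ∈ s, f (x, z) = ∑ z ∈ s0, f (x, z) :=
    Finset.sum_filter_of_ne fun z _ h => lt_of_le_of_ne (hf.nonneg _) (Ne.symm h)
  let η : ℝ := ε / 4 / (s.card + 1)
  have hη : 0 < η := by positivity
  have hq : ∀ z, ∃ (j : ℕ) (q : ℚ), z ∈ s →
      γ j x = z ∧ (0 : ℝ) ≤ q ∧ f (x, z) - η ≤ q ∧ (q : ℝ) ≤ f (x, z) := by
    intro z
    by_cases hz : z ∈ s
    · have hpos : 0 < f (x, z) := (Finset.mem_filter.1 hz).2
      have hxz : F x z := by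
        by_contra h
        exact hpos.ne' (hf.supp x z h)
      obtain ⟨j, hj⟩ := (hγ' x z).1 hxz
      obtain ⟨q, h1, h2⟩ := exists_rat_btwn (show max 0 (f (x, z) - η) < f (x, z) from
        max_lt hpos (by linarith only [hη]))
      exact ⟨j, q, fun _ => ⟨hj, (le_max_left _ _).trans h1.le, (le_max_right _ _).trans h1.le,
        h2.le⟩⟩
    · exact ⟨0, 0, fun h => absurd h hz⟩
  choose j q hq using hq
  have hinj : ∀ a ∈ s, ∀ b ∈ s, (j a, q a) = (j b, q b) → a = b := by
    intro a ha b hb h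
    rw [← (hq a ha).1, ← (hq b hb).1, (Prod.mk.inj h).1]
  have hsum : ∑ a ∈ s.image fun z => (j z, q z), (a.2 : ℝ) = ∑ z ∈ s, (q z : ℝ) :=
    Finset.sum_image hinj
  have hle : ∑ z ∈ s, (q z : ℝ) ≤ 1 :=
    (Finset.sum_le_sum fun z hz => (hq z hz).2.2.2).trans
      (sum_le_hasSum s (fun z _ => hf.nonneg _) (hf.sum x))
  have hge : 1 - ε / 2 < ∑ z ∈ s, (q z : ℝ) := by
    have h1 : ∑ z ∈ s, (f (x, z) - η) ≤ ∑ z ∈ s, (q z : ℝ) :=
      Finset.sum_le_sum fun z hz => (hq z hz).2.2.1
    rw [Finset.sum_sub_distrib, Finset.sum_const, nsmul_eq_mul] at h1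
    have h2 : (s.card : ℝ) * η ≤ ε / 4 := by
      simp only [η]
      rw [mul_div_assoc', div_le_iff₀ (by positivity)]
      linarith only [hε]
    linarith
  refine ⟨s.image fun z => (j z, q z), fun a ha => ?_, hsum ▸ hle, ?_⟩
  · obtain ⟨z, hz, rfl⟩ := Finset.mem_image.1 ha
    exact (hq z hz).2.1
  let r : X → ℝ := fun z => if z ∈ s then (q z : ℝ) else 0
  have hr : HasSum r (∑ z ∈ s, (q z : ℝ)) := by
    have := hasSum_sum_of_ne_finset_zero (L := SummationFilter.unconditional X) (f := r) (s := s)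
      fun z hz => if_neg hz
    rwa [Finset.sum_congr rfl (g := fun z => (q z : ℝ)) fun z hz => if_pos hz] at this
  have hker : ∀ z, ker γ (s.image fun z => (j z, q z)) (x, z) =
      r z + (1 - ∑ z ∈ s, (q z : ℝ)) * pt id (x, z) := by
    intro z
    unfold ker
    rw [hsum, Finset.sum_image hinj]
    congr 1
    rw [Finset.sum_congr rfl (g := fun w => if z = w then (q w : ℝ) else 0) fun w hw => by
      simp only [pt, (hq w hw).1, mul_ite, mul_one, mul_zero]]
    exact Finset.sum_ite_eq s z _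
  have hi : Asg F (pt id) := asg_pt measurable_id hF.refl
  have hS := ((hf.sum x).sub hr).add ((hi.sum x).mul_left (1 - ∑ z ∈ s, (q z : ℝ)))
  have hb : ∀ z, |f (x, z) - ker γ (s.image fun z => (j z, q z)) (x, z)| ≤
      f (x, z) - r z + (1 - ∑ z ∈ s, (q z : ℝ)) * pt id (x, z) := by
    intro z
    have h1 : r z ≤ f (x, z) := by
      simp only [r]
      split_ifs with hz
      · exact (hq z hz).2.2.2
      · exact hf.nonneg _
    have h2 := mul_nonneg (sub_nonneg.2 hle) (hi.nonneg (x, z))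
    rw [hker, abs_le]
    constructor <;> linarith only [h1, h2]
  have := (Summable.of_nonneg_of_le (fun _ => abs_nonneg _) hb hS.summable).tsum_le_tsum hb
    hS.summable
  rw [hS.tsum_eq] at this
  refine lt_of_le_of_lt this (by linarith only [hge])

open Classical in
/-- assignments glued along a list of sets -/
noncomputable def pw {I Q : Type} (A : I → Set X) (k : Q → X × X → ℝ) :
    List (I × Q) → X × X → ℝ
  | [] => pt id
  | a :: l => fun p => if p.1 ∈ A a.1 then k a.2 p else pw A k l p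

theorem asg_pw [StandardBorelSpace X] (hF : Equivalence F) {I Q : Type} {A : I → Set X}
    {k : Q → X × X → ℝ} (hA : ∀ i, MeasurableSet (A i)) (hk : ∀ q, Asg F (k q))
    (l : List (I × Q)) : Asg F (pw A k l) := by
  induction l with
  | nil => exact asg_pt measurable_id hF.refl
  | cons a l ih =>
    refine ⟨Measurable.ite (measurable_fst (hA a.1)) (hk _).meas ih.meas, fun p => ?_,
      fun x z hz => ?_, fun x => ?_⟩
    · simp only [pw]
      split_ifs
      exacts [(hk _).nonneg p, ih.nonneg p]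
    · simp only [pw]
      split_ifs
      exacts [(hk _).supp x z hz, ih.supp x z hz]
    · simp only [pw]
      split_ifs
      exacts [(hk _).sum x, ih.sum x]

omit [MeasurableSpace X] in
theorem pw_eq {I Q : Type} {A : I → Set X} {k : Q → X × X → ℝ} (x : X) (l : List (I × Q))
    (h : ∃ a ∈ l, x ∈ A a.1) : ∃ a ∈ l, x ∈ A a.1 ∧ ∀ z, pw A k l (x, z) = k a.2 (x, z) := by
  induction l with
  | nil => simp only [List.not_mem_nil, false_and, exists_false] at h
  | cons b l ih =>
    by_cases hb : x ∈ A b.1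
    · exact ⟨b, List.mem_cons_self, hb, fun z => if_pos hb⟩
    · obtain ⟨a, ha, hx⟩ := h
      rcases List.mem_cons.1 ha with rfl | ha
      · exact absurd hx hb
      obtain ⟨c, hc, h1, h2⟩ := ih ⟨a, ha, hx⟩
      exact ⟨c, List.mem_cons_of_mem _ hc, h1, fun z => (if_neg hb).trans (h2 z)⟩

/-- a countable family of assignments that is dense for every finite measure -/
theorem exists_family [StandardBorelSpace X] (hF : Equivalence F) (hγ : ∀ j, Measurable (γ j))
    (hγ' : ∀ x y, F x y ↔ ∃ j, γ j x = y) :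
    ∃ G : ℕ → X × X → ℝ, (∀ n, Asg F (G n)) ∧ ∀ (μ : Measure X) [IsFiniteMeasure μ]
      (f : X × X → ℝ), Asg F f → ∀ ε : ℝ, 0 < ε →
        ∃ n, μ.real {x | ε ≤ d2 f (G n) x} ≤ ε := by
  classical
  let 𝒜 : Set (Set X) := generateSetAlgebra (MeasurableSpace.countableGeneratingSet X)
  have h𝒜 : Countable 𝒜 :=
    (countable_generateSetAlgebra MeasurableSpace.countable_countableGeneratingSet).to_subtype
  have hgen : ‹MeasurableSpace X› = MeasurableSpace.generateFrom 𝒜 := by
    rw [generateFrom_generateSetAlgebra_eq, MeasurableSpace.generateFrom_countableGeneratingSet]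
  have hAm : ∀ i : 𝒜, MeasurableSet i.1 := fun i =>
    hgen ▸ MeasurableSpace.measurableSet_generateFrom i.2
  let Q := {t : Finset (ℕ × ℚ) // (∀ a ∈ t, (0 : ℝ) ≤ a.2) ∧ ∑ a ∈ t, (a.2 : ℝ) ≤ 1}
  have : Nonempty Q := ⟨⟨∅, by simp only [Finset.notMem_empty, Rat.cast_nonneg, IsEmpty.forall_iff, implies_true, Finset.sum_empty, zero_le_one, and_self]⟩⟩
  obtain ⟨e, he⟩ := exists_surjective_nat Q
  obtain ⟨L, hL⟩ := exists_surjective_nat (List (𝒜 × ℕ))
  let k : ℕ → X × X → ℝ := fun n => ker γ (e n).1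
  have hk : ∀ n, Asg F (k n) := fun n => asg_ker hF hγ hγ' (e n).2.1 (e n).2.2
  refine ⟨fun n => pw (fun i : 𝒜 => i.1) k (L n), fun n => asg_pw hF hAm hk _, ?_⟩
  intro μ _ f hf ε hε
  have hD := Measure.MeasureDense.of_generateFrom_isSetAlgebra_finite μ
    isSetAlgebra_generateSetAlgebra hgen
  let P : ℕ → Set X := fun n => {x | d2 f (k n) x < ε}
  have hP : ∀ n, MeasurableSet (P n) := fun n =>
    measurableSet_lt (measurable_d2 hγ hγ' hf (hk n)) measurable_const
  let W : ℕ → Set X := fun N => ⋂ n ∈ Finset.range N, (P n)ᶜ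
  have hW : ∀ N, MeasurableSet (W N) := fun N =>
    Finset.measurableSet_biInter _ fun n _ => (hP n).compl
  have hlim : Tendsto (fun N => μ (W N)) atTop (𝓝 0) := by
    have h1 := tendsto_measure_iInter_atTop (μ := μ) (s := W)
      (fun N => (hW N).nullMeasurableSet) (fun a b hab x hx => by
        simp only [W, mem_iInter, Finset.mem_range] at hx ⊢
        exact fun n hn => hx n (by omega)) ⟨0, measure_ne_top _ _⟩
    have h2 : ⋂ N, W N = ∅ := by
      refine eq_empty_of_forall_notMem fun x hx => ?_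
      obtain ⟨t, h3, h4, h5⟩ := exists_ker hF hγ' hf x hε
      obtain ⟨n, hn⟩ := he ⟨t, h3, h4⟩
      have := mem_iInter.1 hx (n + 1)
      simp only [W, mem_iInter, Finset.mem_range] at this
      refine this n (by omega) ?_
      simp only [P, k, hn, mem_ofPred_eq]
      exact h5
    rwa [h2, measure_empty] at h1
  obtain ⟨N, hN⟩ := (hlim.eventually (gt_mem_nhds
    (show (0 : ENNReal) < ENNReal.ofReal (ε / 2) from ENNReal.ofReal_pos.2 (half_pos hε)))).exists
  choose A hA hA' using fun n => hD.approx (P n) (hP n) (measure_ne_top _ _)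
    (ε / 2 / (N + 1)) (by positivity)
  obtain ⟨m, hm⟩ := hL ((List.range N).map fun n => (⟨A n, hA n⟩, n))
  refine ⟨m, ?_⟩
  have hsub : {x | ε ≤ d2 f (pw (fun i : 𝒜 => i.1) k (L m)) x} ⊆
      W N ∪ ⋃ n ∈ Finset.range N, P n ∆ A n := by
    intro x hx
    by_contra hcon
    simp only [W, mem_union, mem_iInter, mem_iUnion, Finset.mem_range, not_or, not_forall,
      not_exists, mem_compl_iff, not_not, mem_symmDiff, not_and] at hcon
    obtain ⟨⟨n, hn, hxn⟩, h2⟩ := hcon
    obtain ⟨a, ha, h3, h4⟩ := pw_eq (A := fun i : 𝒜 => i.1) (k := k) x (L m)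
      ⟨(⟨A n, hA n⟩, n), hm ▸ List.mem_map.2 ⟨n, List.mem_range.2 hn, rfl⟩, (h2 n hn).1 hxn⟩
    rw [hm] at ha
    obtain ⟨n', hn', rfl⟩ := List.mem_map.1 ha
    have h5 : d2 f (k n') x < ε := (h2 n' (List.mem_range.1 hn')).2 h3
    have h6 : d2 f (pw (fun i : 𝒜 => i.1) k (L m)) x = d2 f (k n') x :=
      tsum_congr fun z => by rw [h4 z]
    exact absurd hx (not_le.2 (h6 ▸ h5))
  refine (measureReal_mono hsub).trans ((measureReal_union_le _ _).trans ?_)
  have h1 : μ.real (W N) ≤ ε / 2 := ENNReal.toReal_le_of_le_ofReal (half_pos hε).le hN.le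
  have h2 : μ.real (⋃ n ∈ Finset.range N, P n ∆ A n) ≤ ε / 2 := by
    refine (measureReal_biUnion_finset_le _ _).trans ?_
    refine (Finset.sum_le_card_nsmul _ _ (ε / 2 / (N + 1)) fun n _ =>
      ENNReal.toReal_le_of_le_ofReal (by positivity) (hA' n).le).trans ?_
    rw [Finset.card_range, nsmul_eq_mul, mul_div_assoc', div_le_iff₀ (by positivity)]
    linarith only [hε]
  linarith only [h1, h2]

end Pool.Agent.MP_650f93_lc.H47

end

-- part MP_650f93_lc.H47.Main
section

set_option autoImplicit false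

open Set Filter Topology MeasureTheory

namespace Pool.Agent.MP_650f93_lc.H47

open Pool.Agent.MP_650f93_lc.H98

universe u v

section core

variable {X : Type} [MeasurableSpace X] {F : X → X → Prop} {γ : ℕ → X → X}

theorem asg_mix {f g : X × X → ℝ} (hf : Asg F f) (hg : Asg F g) {a b : ℝ} (ha : 0 ≤ a)
    (hb : 0 ≤ b) (hab : a + b = 1) : Asg F fun p => a * f p + b * g p := by
  refine ⟨(hf.meas.const_mul a).add (hg.meas.const_mul b),
    fun p => add_nonneg (mul_nonneg ha (hf.nonneg p)) (mul_nonneg hb (hg.nonneg p)),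
    fun x z hz => by rw [hf.supp x z hz, hg.supp x z hz]; ring, fun x => ?_⟩
  have := ((hf.sum x).mul_left a).add ((hg.sum x).mul_left b)
  rwa [mul_one, mul_one, hab] at this

theorem dd_mix {f g : X × X → ℝ} (hf : Asg F f) (hg : Asg F g) {a b : ℝ} (ha : 0 ≤ a)
    (hb : 0 ≤ b) (hab : a + b = 1) (x y : X) :
    dd (fun p => a * f p + b * g p) x y ≤ a * dd f x y + b * dd g x y := by
  refine hasSum_le (fun z => ?_) ((asg_mix hf hg ha hb hab).hasSum_dd x y)
    (((hf.hasSum_dd x y).mul_left a).add ((hg.hasSum_dd x y).mul_left b))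
  have e : a * f (x, z) + b * g (x, z) - (a * f (y, z) + b * g (y, z)) =
      a * (f (x, z) - f (y, z)) + b * (g (x, z) - g (y, z)) := by ring
  rw [e]
  refine (abs_add_le _ _).trans (le_of_eq ?_)
  rw [abs_mul, abs_mul, abs_of_nonneg ha, abs_of_nonneg hb]

theorem integral_le_of_tail {K : Type} [MeasurableSpace K] (κ : Measure K)
    [IsProbabilityMeasure κ] {w : K → ℝ} (hw : Measurable w) (h0 : ∀ x, 0 ≤ w x)
    (h2 : ∀ x, w x ≤ 2) {a : ℝ} (ha : 0 ≤ a) :
    ∫ x, w x ∂κ ≤ a + 2 * κ.real {x | a ≤ w x} := by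
  have hm : MeasurableSet {x | a ≤ w x} := measurableSet_le measurable_const hw
  have hi : Integrable ({x | a ≤ w x}.indicator fun _ => (2 : ℝ)) κ :=
    (integrable_const _).indicator hm
  calc ∫ x, w x ∂κ ≤ ∫ x, (a + {x | a ≤ w x}.indicator (fun _ => (2 : ℝ)) x) ∂κ := by
        refine integral_mono_of_nonneg (Eventually.of_forall h0) ((integrable_const a).add hi)
          (Eventually.of_forall fun x => ?_)
        by_cases hx : a ≤ w x
        · simp only [indicator_of_mem (show x ∈ {x | a ≤ w x} from hx)]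
          linarith [h2 x]
        · simp only [indicator_of_notMem (show x ∉ {x | a ≤ w x} from hx)]
          linarith [not_le.1 hx]
    _ = a + 2 * κ.real {x | a ≤ w x} := by
        rw [integral_add (integrable_const a) hi, integral_indicator_const _ hm]
        simp [mul_comm]

theorem core [StandardBorelSpace X] (hF : Equivalence F) (hγ : ∀ j, Measurable (γ j))
    (hγ' : ∀ x y, F x y ↔ ∃ j, γ j x = y)
    (hyp : ∀ ν : Measure (X × ℕ), IsProbabilityMeasure ν → ∀ ε : ℝ, 0 < ε →
      ∃ f, Asg F f ∧ ν.real {p | ε ≤ dd f p.1 (γ p.2 p.1)} ≤ ε) : Am atTop F := by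
  rcases isEmpty_or_nonempty X with hX | hX
  · exact ⟨fun _ _ => 0, fun _ => measurable_const, fun _ _ => le_rfl, fun _ _ _ _ => rfl,
      fun _ x => hX.elim x, fun x => hX.elim x⟩
  obtain ⟨G, hG, hG'⟩ := exists_family hF hγ hγ'
  have hT : Measurable fun p : X × ℕ => γ p.2 p.1 :=
    measurable_from_prod_countable_left fun j => hγ j
  have hD : ∀ {f}, Asg F f → Measurable fun p : X × ℕ => dd f p.1 (γ p.2 p.1) := fun hf =>
    measurable_from_prod_countable_left fun j => hf.measurable_dd hF hγ hγ' j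
  obtain ⟨ψ, hψ, hψs, hψc⟩ := exists_param (Y := X × ℕ)
    (fun n p => dd (G n) p.1 (γ p.2 p.1)) fun n => hD (hG n)
  have key : ∀ δ : ℝ, 0 < δ → ∃ h : ℕ → X × X → ℝ, (∀ k, Asg F (h k)) ∧
      ∀ σ ∈ (univ : Set (ℕ → ℕ)), ∀ ε : ℝ, 0 < ε →
        ∀ᶠ k in atTop, dd (h k) (ψ σ).1 (γ (ψ σ).2 (ψ σ).1) ≤ δ + ε := by
    intro δ hδ
    refine lusin (fun S => ∃ h : ℕ → X × X → ℝ, (∀ k, Asg F (h k)) ∧
      ∀ σ ∈ S, ∀ ε : ℝ, 0 < ε →
        ∀ᶠ k in atTop, dd (h k) (ψ σ).1 (γ (ψ σ).2 (ψ σ).1) ≤ δ + ε) ?_ ?_ ?_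
    · rintro S T hST ⟨h, h1, h2⟩
      exact ⟨h, h1, fun σ hσ => h2 σ (hST hσ)⟩
    · intro S hS hg
      choose g hg hg' using hg
      obtain ⟨h, hh, hh'⟩ := diagonal hF hγ hγ' hg
      refine ⟨h, hh, fun σ hσ => hh' _ _ ((hγ' _ _).2 ⟨_, rfl⟩) δ ?_⟩
      obtain ⟨m0, hm0⟩ := mem_iUnion.1 hσ
      filter_upwards [eventually_ge_atTop m0] with m hm
      exact hg' m σ (hS hm hm0)
    · intro n
      let C : Set (ℕ → ℕ) := {σ | ∀ i, σ i ≤ n i}
      have : CompactSpace C := isCompact_iff_compactSpace.1 (isCompact_box n)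
      have : Nonempty C := ⟨⟨n, fun _ => le_rfl⟩⟩
      obtain ⟨v, ⟨V, rfl, g, hg, hgV⟩, hv⟩ := minimax (K := C)
        {v | ∃ V : C(ℕ → ℕ, ℝ), v = V.restrict C ∧ ∃ g, Asg F g ∧
          ∀ σ, dd g (ψ σ).1 (γ (ψ σ).2 (ψ σ).1) ≤ V σ} (by
          rintro _ ⟨V, rfl, g, hg, hgV⟩ _ ⟨V', rfl, g', hg', hgV'⟩ a b ha hb hab
          refine ⟨a • V + b • V', rfl, _, asg_mix hg hg' ha hb hab, fun σ => ?_⟩
          refine (dd_mix hg hg' ha hb hab _ _).trans ?_
          exact add_le_add (mul_le_mul_of_nonneg_left (hgV σ) ha)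
            (mul_le_mul_of_nonneg_left (hgV' σ) hb)) δ (by
          intro κ hκ
          have hc : Measurable fun σ : C => ψ σ.1 := hψ.comp measurable_subtype_coe
          let ν : Measure (X × ℕ) := κ.map fun σ : C => ψ σ.1
          have hν : IsProbabilityMeasure ν := Measure.isProbabilityMeasure_map hc.aemeasurable
          obtain ⟨f, hf, hf'⟩ := hyp ν hν (δ / 8) (by positivity)
          obtain ⟨m, hm⟩ := hG' (ν.map Prod.fst + ν.map fun p => γ p.2 p.1) f hf (δ / 8)
            (by positivity)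
          refine ⟨_, ⟨⟨_, hψc m⟩, rfl, G m, hG m, fun σ => le_rfl⟩, ?_⟩
          have hd2 : MeasurableSet {x | δ / 8 ≤ d2 f (G m) x} :=
            measurableSet_le measurable_const (measurable_d2 hγ hγ' hf (hG m))
          rw [measureReal_add_apply, map_measureReal_apply measurable_fst hd2,
            map_measureReal_apply hT hd2] at hm
          have h1 := integral_le_of_tail ν (hD (hG m)) (fun p => dd_nonneg _ _ _)
            (fun p => (hG m).dd_le _ _) (a := 3 * (δ / 8)) (by positivity)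
          have h2 : {p : X × ℕ | 3 * (δ / 8) ≤ dd (G m) p.1 (γ p.2 p.1)} ⊆
              (Prod.fst ⁻¹' {x | δ / 8 ≤ d2 f (G m) x} ∪
                (fun p : X × ℕ => γ p.2 p.1) ⁻¹' {x | δ / 8 ≤ d2 f (G m) x}) ∪
                {p | δ / 8 ≤ dd f p.1 (γ p.2 p.1)} := by
            intro p hp
            by_contra hcon
            simp only [mem_union, mem_preimage, mem_ofPred_eq, not_or, not_le] at hcon hp
            have := dd_le_d2 hf (hG m) p.1 (γ p.2 p.1)
            linarith only [hcon.1.1, hcon.1.2, hcon.2, hp, this]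
          have h3 := (measureReal_mono (μ := ν) h2).trans ((measureReal_union_le _ _).trans
            (add_le_add ((measureReal_union_le _ _).trans hm) hf'))
          rw [integral_map hc.aemeasurable (hD (hG m)).aestronglyMeasurable] at h1
          refine lt_of_le_of_lt h1 ?_
          linarith only [hδ, h3])
      refine ⟨{σ | V σ < δ}, isOpen_lt V.continuous continuous_const, fun σ hσ => hv ⟨σ, hσ⟩,
        fun _ => g, fun _ => hg, fun σ hσ ε hε => Eventually.of_forall fun _ => ?_⟩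
      have h1 : V σ < δ := hσ
      linarith [hgV σ]
  choose g hg hg' using fun m : ℕ => key (1 / ((m : ℝ) + 1)) Nat.one_div_pos_of_nat
  obtain ⟨h, hh, hh'⟩ := diagonal hF hγ hγ' hg
  refine ⟨h, fun n => (hh n).meas, fun n => (hh n).nonneg, fun n => (hh n).supp,
    fun n => (hh n).sum, fun x y hxy => ?_⟩
  change Tendsto (fun k => dd (h k) x y) atTop (𝓝 0)
  rw [Metric.tendsto_nhds]
  intro ε hε
  obtain ⟨j, hj⟩ := (hγ' x y).1 hxy
  obtain ⟨σ, hσ⟩ := hψs (x, j)
  have := hh' x y hxy (ε / 3) (by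
    filter_upwards [(tendsto_one_div_add_atTop_nhds_zero_nat (𝕜 := ℝ)).eventually
      (ge_mem_nhds (show 0 < ε / 3 by positivity))] with m hm η hη
    have := hg' m σ (mem_univ _) η hη
    simp only [hσ, hj] at this
    exact this.mono fun k hk => by linarith only [hm, hk]) (ε / 3) (by positivity)
  filter_upwards [this] with k hk
  rw [Real.dist_eq, sub_zero, abs_of_nonneg (dd_nonneg _ _ _)]
  linarith

end core

/-- amenable on a conull set, for every measure -/
def MA {X : Type u} [MeasurableSpace X] (E : X → X → Prop) : Prop :=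
  ∀ μ : Measure X, IsProbabilityMeasure μ → ∃ B : Set X, MeasurableSet B ∧ μ Bᶜ = 0 ∧
    Am atTop fun x y => (x ∈ B ∧ y ∈ B ∧ E x y) ∨ x = y

theorem MA.transport {X : Type u} {Y : Type v} [MeasurableSpace X] [MeasurableSpace Y]
    (e : Y ≃ᵐ X) {E : X → X → Prop} (h : MA E) : MA fun a b => E (e a) (e b) := by
  intro μ hμ
  obtain ⟨B, hB, hB0, hA⟩ := h (μ.map e)
    (Measure.isProbabilityMeasure_map e.measurable.aemeasurable)
  refine ⟨e ⁻¹' B, e.measurable hB, ?_, Am.transport e (fun a b => ?_) hA⟩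
  · rwa [Measure.map_apply e.measurable hB.compl] at hB0
  · simp only [mem_preimage, e.injective.eq_iff]

theorem union1 {X : Type} [MeasurableSpace X] [StandardBorelSpace X] (E : ℕ → X → X → Prop)
    (hEm : ∀ i, MeasurableSet {p : X × X | E i p.1 p.2})
    (hEc : ∀ i x, Set.Countable {y : X | E i x y})
    (hmono : ∀ i j x y, i ≤ j → E i x y → E j x y)
    (hF : Equivalence fun x y => ∃ i, E i x y) (hf : ∀ i, MA (E i)) :
    Am atTop fun x y => ∃ i, E i x y := by
  let F : X → X → Prop := fun x y => ∃ i, E i x y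
  obtain ⟨γ, hγ, hγ'⟩ := Pool.Agent.Lib.LusinNovikov.exists_enum (F := F) (by
      have : {p : X × X | F p.1 p.2} = ⋃ i, {p : X × X | E i p.1 p.2} := by
        ext p; simp only [F, mem_ofPred_eq, mem_iUnion]
      rw [this]; exact MeasurableSet.iUnion hEm) (fun x => by
      have : {y | F x y} = ⋃ i, {y | E i x y} := by
        ext p; simp only [F, mem_ofPred_eq, mem_iUnion]
      rw [this]; exact countable_iUnion fun i => hEc i x) hF.refl
  refine core hF hγ hγ' fun ν hν ε hε => ?_
  have hT : Measurable fun p : X × ℕ => γ p.2 p.1 :=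
    measurable_from_prod_countable_left fun j => hγ j
  let Z : ℕ → Set (X × ℕ) := fun i => {p | E i p.1 (γ p.2 p.1)}
  have hZ : ∀ i, MeasurableSet (Z i) := fun i => (measurable_fst.prodMk hT) (hEm i)
  have hlim : Tendsto (fun i => ν (Z i)ᶜ) atTop (𝓝 0) := by
    have h1 := tendsto_measure_iInter_atTop (μ := ν) (s := fun i => (Z i)ᶜ)
      (fun i => (hZ i).compl.nullMeasurableSet)
      (fun a b hab p hp h => hp (hmono a b _ _ hab h)) ⟨0, measure_ne_top _ _⟩
    have h2 : ⋂ i, (Z i)ᶜ = ∅ := by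
      refine eq_empty_of_forall_notMem fun p hp => ?_
      obtain ⟨i, hi⟩ := (hγ' p.1 (γ p.2 p.1)).2 ⟨p.2, rfl⟩
      exact mem_iInter.1 hp i hi
    rwa [h2, measure_empty] at h1
  obtain ⟨i, hi⟩ := (hlim.eventually (gt_mem_nhds
    (show (0 : ENNReal) < ENNReal.ofReal (ε / 2) from ENNReal.ofReal_pos.2 (half_pos hε)))).exists
  have hi' : ν.real (Z i)ᶜ ≤ ε / 2 := ENNReal.toReal_le_of_le_ofReal (half_pos hε).le hi.le
  have h1 := Measure.isProbabilityMeasure_map (μ := ν) measurable_fst.aemeasurable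
  have h2 := Measure.isProbabilityMeasure_map (μ := ν) hT.aemeasurable
  obtain ⟨B, hB, hB0, f, hf1, hf2, hf3, hf4, hf5⟩ := hf i
    ((2⁻¹ : ENNReal) • (ν.map Prod.fst + ν.map fun p => γ p.2 p.1)) ⟨by
      rw [Measure.smul_apply, Measure.add_apply, measure_univ, measure_univ, one_add_one_eq_two,
        smul_eq_mul, ENNReal.inv_mul_cancel (by norm_num) (by norm_num)]⟩
  rw [Measure.smul_apply, Measure.add_apply, smul_eq_mul, mul_eq_zero, add_eq_zero,
    Measure.map_apply measurable_fst hB.compl, Measure.map_apply hT hB.compl] at hB0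
  obtain ⟨hB1, hB2⟩ := hB0.resolve_left (by norm_num)
  have hA : ∀ n, Asg F (f n) := fun n => ⟨hf1 n, hf2 n, fun x z h => hf3 n x z fun h' =>
    h (h'.elim (fun h' => ⟨i, h'.2.2⟩) fun h' => h' ▸ hF.refl x), hf4 n⟩
  have hD : ∀ n, Measurable fun p : X × ℕ => dd (f n) p.1 (γ p.2 p.1) := fun n =>
    measurable_from_prod_countable_left fun j => (hA n).measurable_dd hF hγ hγ' j
  have hc := tendstoInMeasure_iff_measureReal_dist.1 (tendstoInMeasure_of_tendsto_ae (μ := ν)
    (f := fun n => (Z i).indicator fun p => dd (f n) p.1 (γ p.2 p.1)) (g := fun _ => 0)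
    (fun n => ((hD n).indicator (hZ i)).aestronglyMeasurable) (by
      filter_upwards [measure_eq_zero_iff_ae_notMem.1 hB1, measure_eq_zero_iff_ae_notMem.1 hB2]
        with p hp1 hp2
      by_cases hp : p ∈ Z i
      · simp only [indicator_of_mem hp]
        exact hf5 _ _ (Or.inl ⟨not_not.1 hp1, not_not.1 hp2, hp⟩)
      · simp only [indicator_of_notMem hp]
        exact tendsto_const_nhds)) ε hε
  obtain ⟨n, hn⟩ := (hc.eventually (ge_mem_nhds (half_pos hε))).exists
  refine ⟨f n, hA n, ?_⟩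
  have hsub : {p : X × ℕ | ε ≤ dd (f n) p.1 (γ p.2 p.1)} ⊆ (Z i)ᶜ ∪
      {p | ε ≤ dist ((Z i).indicator (fun p => dd (f n) p.1 (γ p.2 p.1)) p) 0} := by
    intro p hp
    by_cases hz : p ∈ Z i
    · right
      simp only [mem_ofPred_eq, indicator_of_mem hz, Real.dist_eq, sub_zero]
      exact le_trans hp (le_abs_self _)
    · exact Or.inl hz
  refine (measureReal_mono hsub).trans ((measureReal_union_le _ _).trans ?_)
  linarith only [hi', hn]

theorem extend {X : Type u} [MeasurableSpace X] [StandardBorelSpace X] {E : X → X → Prop}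
    {B : Set X} (hB : MeasurableSet B) (h : Am atTop fun x y : B => E x.1 y.1) :
    Am atTop fun x y => (x ∈ B ∧ y ∈ B ∧ E x y) ∨ x = y := by
  classical
  obtain ⟨f, h1, h2, h3, h4, h5⟩ := h
  let g : ℕ → X × X → ℝ := fun n p => if h : p ∈ B ×ˢ B then f n (⟨p.1, h.1⟩, ⟨p.2, h.2⟩)
    else if p.1 ∉ B ∧ p.2 = p.1 then 1 else 0
  have hg : ∀ n (x z : B), g n (x.1, z.1) = f n (x, z) := fun n x z =>
    dif_pos (show (x.1, z.1) ∈ B ×ˢ B from ⟨x.2, z.2⟩)
  have hg0 : ∀ n x z, x ∈ B → z ∉ B → g n (x, z) = 0 := fun n x z hx hz =>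
    (dif_neg fun h : (x, z) ∈ B ×ˢ B => hz h.2).trans (if_neg fun h => h.1 hx)
  have hg1 : ∀ n x z, x ∉ B → g n (x, z) = if z = x then 1 else 0 := fun n x z hx =>
    (dif_neg fun h : (x, z) ∈ B ×ˢ B => hx h.1).trans (by simp [hx])
  refine ⟨g, fun n => ?_, fun n p => ?_, fun n x z hz => ?_, fun n x => ?_, ?_⟩
  · refine Measurable.dite (s := B ×ˢ B)
      (f := fun p => f n (⟨p.1.1, p.2.1⟩, ⟨p.1.2, p.2.2⟩))
      (g := fun p => if p.1.1 ∉ B ∧ p.1.2 = p.1.1 then 1 else 0) ?_ ?_ (hB.prod hB)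
    · exact (h1 n).comp (((measurable_fst.comp measurable_subtype_coe).subtype_mk).prodMk
        ((measurable_snd.comp measurable_subtype_coe).subtype_mk))
    · exact Measurable.ite (measurable_subtype_coe ((measurable_fst hB.compl).inter
        (measurableSet_eq_fun measurable_snd measurable_fst))) measurable_const measurable_const
  · simp only [g]
    split_ifs
    exacts [h2 n _, zero_le_one, le_rfl]
  · rw [not_or] at hz
    by_cases hx : x ∈ B
    · by_cases hzB : z ∈ B
      · exact (hg n ⟨x, hx⟩ ⟨z, hzB⟩).trans (h3 n _ _ fun h => hz.1 ⟨hx, hzB, h⟩)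
      · exact hg0 n x z hx hzB
    · rw [hg1 n x z hx, if_neg fun h => hz.2 h.symm]
  · by_cases hx : x ∈ B
    · refine (hasSum_subtype_iff_of_support_subset (s := B) (f := fun z => g n (x, z))
        fun z hz => ?_).1 ?_
      · by_contra h
        exact hz (hg0 n x z hx h)
      · have e : (fun z => g n (x, z)) ∘ (Subtype.val : B → X) = fun z => f n (⟨x, hx⟩, z) :=
          funext fun z => hg n ⟨x, hx⟩ z
        rw [e]
        exact h4 n _
    · simp only [hg1 n x _ hx]
      exact hasSum_ite_eq x 1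
  · rintro x y (⟨hx, hy, hxy⟩ | rfl)
    · refine (h5 ⟨x, hx⟩ ⟨y, hy⟩ hxy).congr fun n => ?_
      rw [← tsum_subtype_eq_of_support_subset (s := B)
        (f := fun z => |g n (x, z) - g n (y, z)|) fun z hz => by
          by_contra h
          exact hz (by simp [hg0 n x z hx h, hg0 n y z hy h])]
      exact tsum_congr fun z => by rw [← hg n ⟨x, hx⟩ z, ← hg n ⟨y, hy⟩ z]
    · simp only [sub_self, abs_zero, tsum_zero, tendsto_const_nhds_iff]

theorem main (π : ℕ × ℕ ≃ ℕ) (X : Type u) [MeasurableSpace X] [StandardBorelSpace X]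
    (E : ℕ → Setoid X) (hE : ∀ i, IsCBER (E i)) (hs : ∀ i x y, E i x y → E (i + 1) x y)
    (ha : ∀ (i : ℕ) (μ : Measure X), IsProbabilityMeasure μ →
      ∃ B : Set X, MeasurableSet B ∧ μ B = 1 ∧ ∃ (α : Ordinal.{0}) (F : Filter ℕ),
        IsIter π α F ∧ Amenable F ((E i).comap (Subtype.val : B → X))) :
    ∃ U : Setoid X, (∀ x y, U x y ↔ ∃ i, E i x y) ∧ IsCBER U ∧
      ∀ (β : Ordinal.{0}) (G : Filter ℕ), IsIter π β G → Amenable G U := by
  have hmono : ∀ i j x y, i ≤ j → E i x y → E j x y := by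
    intro i j x y hij h
    induction j, hij using Nat.le_induction with
    | base => exact h
    | succ j _ ih => exact hs j x y ih
  have hF : Equivalence fun x y => ∃ i, E i x y :=
    ⟨fun x => ⟨0, (E 0).refl x⟩, fun ⟨i, h⟩ => ⟨i, (E i).symm h⟩,
      fun ⟨i, h⟩ ⟨j, h'⟩ => ⟨max i j, (E _).trans (hmono _ _ _ _ (le_max_left _ _) h)
        (hmono _ _ _ _ (le_max_right _ _) h')⟩⟩
  have hMA : ∀ i, MA (E i) := by
    intro i μ hμ
    obtain ⟨B, hB, hB1, α, F, hF1, hF2⟩ := ha i μ hμ
    refine ⟨B, hB, (prob_compl_eq_zero_iff hB).2 hB1, extend hB ?_⟩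
    have := hB.standardBorel
    have hC : IsCBER ((E i).comap (Subtype.val : B → X)) :=
      ⟨((measurable_subtype_coe.comp measurable_fst).prodMk
        (measurable_subtype_coe.comp measurable_snd)) (hE i).1,
        fun x => ((hE i).2 x.1).preimage_of_injOn (f := Subtype.val)
          Subtype.val_injective.injOn⟩
    obtain ⟨U, hU1, hU2, hU3⟩ := union π B (fun _ => (E i).comap Subtype.val) (fun _ => hC)
      (fun _ _ _ h => h) fun _ => ⟨α, F, hF1, hF2⟩
    have h1 := (hU3 1 _ IsIter.one).am hU2.1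
    rw [Nat.cofinite_eq_atTop] at h1
    exact Am.transport (MeasurableEquiv.refl B)
      (fun x y => ⟨fun h => (hU1 x y).2 ⟨0, h⟩, fun h => ((hU1 x y).1 h).elim fun _ h => h⟩) h1
  refine ⟨⟨_, hF⟩, fun _ _ => Iff.rfl, ⟨?_, fun x => ?_⟩, fun β G hG => ?_⟩
  · have : {p : X × X | ∃ i, E i p.1 p.2} = ⋃ i, {p : X × X | E i p.1 p.2} := by
      ext p; simp only [mem_ofPred_eq, mem_iUnion]
    exact this ▸ MeasurableSet.iUnion fun i => (hE i).1
  · have : {y | ∃ i, E i x y} = ⋃ i, {y | E i x y} := by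
      ext p; simp only [mem_ofPred_eq, mem_iUnion]
    exact this ▸ countable_iUnion fun i => (hE i).2 x
  obtain ⟨s, hs', ⟨e⟩⟩ := MeasureTheory.exists_subset_real_measurableEquiv X
  have := hs'.standardBorel
  refine Am.amenable (Am.of_atTop ?_ hG)
  refine Am.transport e (E' := fun a b => ∃ i, E i (e.symm a) (e.symm b)) (by
    intro x y
    simp only [MeasurableEquiv.symm_apply_apply]) ?_
  refine union1 (fun i a b => E i (e.symm a) (e.symm b)) (fun i => ?_) (fun i a => ?_)
    (fun i j a b => hmono i j _ _) ⟨fun a => hF.refl _, fun h => hF.symm h,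
      fun h h' => hF.trans h h'⟩ fun i => (hMA i).transport e.symm
  · exact ((e.symm.measurable.comp measurable_fst).prodMk
      (e.symm.measurable.comp measurable_snd)) (hE i).1
  · exact ((hE i).2 (e.symm a)).preimage_of_injOn (f := e.symm) e.symm.injective.injOn

end Pool.Agent.MP_650f93_lc.H47

end
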